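import Mathlib
import Pool.Agent.W521.Formula

/-!
# Poles of zeta functions of abelian varieties over finite fields: almost all isogeny classes

Let `g i` (`i` in a finite set `I`) be positive integers.  For a prime power `q` let `S i` be the
set of the characteristic polynomials of Frobenius of the abelian varieties of dimension `g i` over
the field with `q` elements.  It contains the polynomials `f` of `weilPolys q (g i)` whose middle
coefficient is prime to `q` and is contained in `weilPolys q (g i)` (Weil, Honda, Tate), and its
elements correspond to the isogeny classes.

For all families `f i` in `S i` with the exception of a proportion `O (q ^ (-1 / 6) log q)` the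
following holds for all abelian varieties `A` isogenous to a product of powers of abelian varieties
`A i` with characteristic polynomials `f i`: for all `s > 0` and all `n`, the order of the pole at
`z = n` of the zeta function of `A` over the extension of degree `s` is the dimension of the span of
the products of `n` classes `y` of degree two with `F y = q y`, which are (by the theorem of Tate)
the classes of divisors.  So it is the rank of the group of cycles of codimension `n` modulo
numerical equivalence, as predicted by Tate.
-/

set_option autoImplicit false

namespace Pool.Agent.Results.MP_557161_ag.AlmostAllIsogenyClasses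

open Polynomial Pool.Agent.W521.Descent Pool.Agent.W521.Count Pool.Agent.W521.Formula

/-- `weilPolys q g` is the set of monic integral polynomials of degree `2 g` with constant term
`q ^ g` and all roots of absolute value `√q`, and `ordinaryWeilPolys q g` is the subset of those
whose coefficient of index `g` is prime to `q`. -/
theorem result {I : Type} [Fintype I] (g : I → ℕ) (hg : ∀ i, 0 < g i) :
    ∃ C : ℝ, ∀ q : ℕ, IsPrimePow q → ∀ S : I → Set ℤ[X],
      (∀ i, ordinaryWeilPolys q (g i) ⊆ S i ∧ S i ⊆ weilPolys q (g i)) →
      (∀ i, (S i).Finite ∧ (S i).Nonempty) ∧
      ({f : I → ℤ[X] | (∀ i, f i ∈ S i) ∧ ¬ PoleFormula q f}.ncard : ℝ) ≤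
        C * (Real.log q * (q : ℝ) ^ (-(1 / 6) : ℝ)) * ∏ i, ((S i).ncard : ℝ) :=
  formula_count_between g hg

end Pool.Agent.Results.MP_557161_ag.AlmostAllIsogenyClasses
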