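import Pool.Agent.W458.MF.Fin3

/-!
# MP_557161_ag: the pole formula for the products of almost all members of families

Let `Y` be a smooth proper variety over an algebraic closure of a finite field such that Tate's
formula for the orders of the poles of the zeta function holds for all products of copies of `Y`
(in the geometric form: over all sufficiently large finite fields), for example a projective space.
Let `F i`, for `i` in a finite set, be families of varieties `X_s` over `Y`, whose cohomology is
the sum of the pull-back of the cohomology of `Y` and of a subspace `P_s` of the cohomology of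
degree `dim X_s`, with full symplectic monodromy, for example the smooth hypersurface sections of
given degree and odd dimension of `Y`. Then for all `ε > 0` and all large `m`, for all but at most
`ε * ∏ i, #S_i(m)` of the tuples `s` in the product of the sets `S_i(m)` of the parameters with
coordinates in the field with `p ^ m` elements, Tate's formula holds for **all products** of
copies of `Y` and of the members `X_{i, s_i}` of the families, at all integers.
-/

open CategoryTheory AlgebraicGeometry Polynomial

universe u v

namespace Pool.Agent.Results.MP_557161_ag.AlmostAllSections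

open Pool.Agent.H914 Pool.Agent.W534 Pool.Agent.W458.MF VarClass Obj WeilCohomology

/-- **The pole formula for all products of almost all members of families of varieties with
symplectic monodromy.** -/
theorem result {k : Type u} [Field k] {𝒱 : VarClass k} {ops : CycleOps 𝒱}
    (W : WeilCohomology.{u, v} ops) [IsAlgClosed W.K] (σ : W.K →+* ℂ) (p : ℕ)
    (hp : p.Prime) (Φ : FrobSystem W p) (hRH : ∀ Z, RiemannHyp Φ σ Z) (Y : 𝒱.Obj)
    (hint : ∀ μ : W.K, Module.End.HasEigenvalue (W.map (Φ.Fr Y)).toLinearMap μ → IsIntegral ℤ μ)
    (hY : ∀ Z, IsProductOf {Y} Z → ∀ j ≤ Z.dim, PoleFormula Φ σ Z j)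
    {I : Type} [Fintype I] (F : I → Family W Y) (n g l₀ : I → ℕ)
    (hF : ∀ i, (F i).HasSymplecticMonodromy Φ (n i) (g i) (l₀ i)) (ε : ℝ) (hε : 0 < ε) :
    ∃ m₀ : ℕ, ∀ m ≥ m₀,
      ((exceptions F m fun Z => ∀ j ≤ Z.dim, PoleFormula Φ σ Z j).ncard : ℝ) ≤
        ε * ∏ i, (Nat.card ((F i).S m) : ℝ) :=
  almost_all_pole W σ p hp Φ hRH Y hint hY F n g l₀ hF ε hε

end Pool.Agent.Results.MP_557161_ag.AlmostAllSections
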