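import Pool.Agent.W547.DP.PFamilies

/-!
# Tate's conjecture on the poles of the zeta function for all powers of simple ordinary abelian
# varieties of dimension at most seven

Let `A₀` be an ordinary abelian variety over the field with `q = p ^ a` elements, isogenous to a product
of abelian varieties whose canonical lifts have one and the same CM type `A = (E, Φ)`,
`[E : ℚ] ≤ 14`, where `E` contains their Frobenius endomorphisms `π i`; for instance any power of a
simple ordinary abelian variety of dimension at most seven. The canonical lift of `A₀` is, up to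
isogeny, the product `X` of copies of the abelian variety of CM type `(E, Φ)`; `Φ` consists of the
embeddings `φ` for which `φ (π i)` has slope one.

Let `V` be the first cohomology (or the Tate module) of `A₀` with complex coefficients, obtained from
`ℚ_ℓ`, `ℓ ≠ p`, by an embedding into the complex numbers, `V = ℂ ⊗ H_1(X, ℚ)`, `Q = q ^ s`, and for every `r`
let `A r ⊆ H^{2r}(A₀, ℂ)` be the space of the rational linear combinations of the classes of
algebraic cycles of codimension `r` on `A₀` over the field with `Q` elements. Of these spaces the
theorem uses only the following properties (`IsCycleSystem`):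

* they consist of Tate classes;
* they contain all Tate classes of the ring generated by the classes of divisors on `X` and by the
  pull-backs, along homomorphisms `X → Y`, of the Weil classes of imaginary quadratic fields on
  abelian fourfolds and sixfolds `Y` of CM type and of split Weil type (these are algebraic by
  the theorems of Lefschetz and Markman);
* intersection numbers are rational.

Then every numerically trivial class in `A r` is zero, so `A r` is the space `A^r_num` of cycles modulo
numerical equivalence, and the zeta function of `A₀` over the field with `Q` elements has order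
`- dim A r` at the integer `r`, as conjectured by Tate.
-/

namespace Pool.Agent.Results.MP_557161_ag.OrdinaryDegreeFourteen

open Module Pool.Agent.W547.KB Pool.Agent.W547.LD Pool.Agent.W530.NF Pool.Agent.W547.LN
open Pool.Agent.W547.DP Pool.Agent.H868R3.TwoOdd

/-- `X`, a product of copies of the abelian variety of CM type `B = (E, Φ)`, `[E : ℚ] ≤ 14`, is the
canonical lift of `A₀`; `zeta Q F z` is the product of the
`det (1 - Q ^ (-z) F | ⋀ ^ j V) ^ ((-1) ^ (j + 1))`. -/
theorem result (p : ℕ) [Fact p.Prime] (a : ℕ) (ha : 0 < a) (ν : PadicAlgCl p ≃+* ℂ) (B : CMPair)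
    (hB : finrank ℚ B.E ≤ 14) (X : CMAV) (hX : ∀ i, X.factor i = B) (π : X.H1)
    (hπ : IsCanonicalLift p a ν X π) (hw : IsWeilNumber (p ^ a) X π)
    {V : Type} [AddCommGroup V] [Module ℂ V] (C : Comparison X ℂ V) (F : V →ₗ[ℂ] V)
    (hF : IsFrobeniusMap C π F) (s : ℕ) (hs : 0 < s) :
    (∃ A, IsCycleSystem C (F ^ s) ((p ^ a) ^ s) A) ∧
    ∀ A : ∀ r : ℕ, Submodule ℚ (V [⋀^Fin (2 * r)]→ₗ[ℂ] ℂ),
      IsCycleSystem C (F ^ s) ((p ^ a) ^ s) A → ∀ r : ℕ,
        (∀ z ∈ A r, IsNumericallyTrivial C A z → z = 0) ∧
        meromorphicOrderAt (zeta (((p ^ a) ^ s : ℕ) : ℝ) (F ^ s)) (r : ℂ) =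
          ((-(finrank ℚ (A r) : ℤ) : ℤ) : WithTop ℤ) :=
  pole_seven p a ha ν B hB X hX π hπ hw C F hF s hs

end Pool.Agent.Results.MP_557161_ag.OrdinaryDegreeFourteen
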